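import Pool.Agent.H646Z.WkProof

set_option autoImplicit false

open Pool.Agent.H646Z.Wk

universe u v

/-- The class of representable weakening implication semigroups is not closed under homomorphic
images, so it is not a variety. -/
theorem Pool.Agent.Results.MP_d80673_al.ANotVariety.result :
    ∃ (A B : ISAlg) (h : A.carrier → B.carrier),
      InK.{0, 0} A ∧ IsHom A B h ∧ Function.Surjective h ∧ ¬ InK.{u, v} B :=
  Pool.Agent.H646Z.Wk.main
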